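import Pool.Agent.H468Z.PohDomain
import Pool.Agent.H468Z.PohDefs

/-!
The Li-Lin problem `Δu - u⁴ + u³ / |x| = 0` (`N = 3`, `s = 1`, `p = 4`) has no positive solution
on a smooth bounded domain whose boundary has negative principal curvatures at the origin.
-/

set_option autoImplicit false

open MeasureTheory Filter Topology

namespace Pool.Agent.Results.MP_a271d0_an.NegCurvature

open Pool.Agent.H468Z.Poh Pool.Agent.H468Z.LiLin

/-- There is a smooth bounded domain `Ω = {ρ < 0}` in `ℝ³` with `0 ∈ ∂Ω` and negative principal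
curvatures at `0`, on which `Δu - u⁴ + u³ / |x| = 0` has no positive weak solution in `H¹₀(Ω)`. -/
theorem result : ∃ (Ω : Set R3) (ρ : R3 → ℝ),
    IsSmoothDomain Ω ρ ∧ (0 : R3) ∈ frontier Ω ∧ NegCurvedAtZero ρ ∧
    ¬ ∃ (u : R3 → ℝ) (G : R3 → R3), InH10 Ω u G ∧
      (∀ᵐ x ∂(volume : Measure R3), x ∈ Ω → 0 < u x) ∧ WeakEq Ω u G := by
  refine ⟨Dom (1 / 2000), rho (1 / 2000), ⟨isOpen_Dom _, isConnected_Dom _,
    isBounded_iff_forall_norm_le.2 ⟨4, Dom_bdd (by norm_num) (by norm_num)⟩, contDiff_rho _, rfl,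
    fderiv_rho_ne _⟩, zero_mem_frontier _, hess_rho (by norm_num), ?_⟩
  rintro ⟨u, G, ⟨hu, hG, φ, hφ, h1, h2⟩, hpos, hw⟩
  exact no_solution (by norm_num) le_rfl u G hu hG φ hφ h1 h2 hpos hw

end Pool.Agent.Results.MP_a271d0_an.NegCurvature
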